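import Pool.Agent.H28.LF.T1
import Pool.Agent.H28.LF.T2
import Pool.Agent.H49.LF.X6b
import Pool.Agent.H7.LF.X2

/-!
Project LF (`MP_c59857_nt`), section 5 of `H28_LF.md`: row X3 (the first moment).
-/

set_option autoImplicit false

open MeasureTheory ProbabilityTheory Filter Topology Finset
open scoped Nat ENNReal

namespace Pool.Agent.H6.LF

open Pool.Agent.H24.T2 (Pset)
open Pool.Agent.H67.AG (avgP ul Inv Rt Av SA kap JJ TT InvZ nxt triv tow XN PN TN XX PX TX prX Fac)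
open Pool.Agent.H28.LF
open Pool.Agent.H49.LF (meas_y meas_mv mv_bd inv_le meas_Pt Pt_bd meas_dm dm_bd meas_gg gg_bd)
open Pool.Agent.H7.LF (g_iter x2_shift)
open Pool.Agent.H32.AG (s2_meas_sel s2_av_meas s2_int s2_iter_meas s2_av_bd)

/-- the conditional frequency of the mismatches is at least `m₀` outside of `e a b` -/
theorem ce_lower (d : Sx) (a b : Fin d.n) :
    (fun x => d.m₀ * ((d.e a b)ᶜ).indicator (fun _ => (1 : ℝ)) x) ≤ᵐ[d.P']
      d.P'[d.gg a b | Inv d.T' 1] := by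
  have hm : Inv d.T' 1 ≤ d.mΩ' := inv_le _ _
  have hgg : Integrable (d.gg a b) d.P' :=
    s2_int (meas_gg a b) (gg_bd a b)
  have hcm : MeasurableSet[Inv d.T' 1] ((d.e a b)ᶜ) := (d.em a b).compl
  have hindm : StronglyMeasurable[Inv d.T' 1]
      (fun x => d.m₀ * ((d.e a b)ᶜ).indicator (fun _ => (1 : ℝ)) x) :=
    (stronglyMeasurable_const.indicator hcm).const_mul _
  have hindi : Integrable (fun x => d.m₀ * ((d.e a b)ᶜ).indicator (fun _ => (1 : ℝ)) x) d.P' :=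
    ((integrable_const (1 : ℝ)).indicator (hm _ hcm)).const_mul _
  refine ae_le_of_ae_le_trim (hm := hm) ?_
  refine ae_le_of_forall_setIntegral_le (hindi.trim hm hindm)
    (integrable_condExp.trim hm stronglyMeasurable_condExp) ?_
  intro A hA _
  rw [← setIntegral_trim hm hindm hA, ← setIntegral_trim hm stronglyMeasurable_condExp hA,
    setIntegral_condExp hm hgg hA]
  have h1 : ∫ x in A, d.m₀ * ((d.e a b)ᶜ).indicator (fun _ => (1 : ℝ)) x ∂d.P' =
      d.m₀ * d.P'.real (A \ d.e a b) := by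
    rw [integral_const_mul, integral_indicator_const _ (hm _ hcm), smul_eq_mul, mul_one,
      measureReal_restrict_apply (hm _ hcm), Set.inter_comm]
    rfl
  have hne : MeasurableSet {ω | d.y a ω ≠ d.y b ω} :=
    (measurableSet_eq_fun (d.ym a) (d.ym b)).compl
  have h2 : ∫ x in A, d.gg a b x ∂d.P' = d.P'.real (A ∩ {ω | d.y a ω ≠ d.y b ω}) := by
    have h3 : d.gg a b = ({ω | d.y a ω ≠ d.y b ω}).indicator (fun _ => (1 : ℝ)) := by
      funext x
      unfold Sx.gg dm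
      by_cases h : d.y a x = d.y b x
      · rw [if_pos h, Set.indicator_of_notMem]
        exact fun h' => h' h
      · rw [if_neg h, Set.indicator_of_mem]
        exact h
    rw [h3, integral_indicator_const _ hne, smul_eq_mul, mul_one,
      measureReal_restrict_apply hne, Set.inter_comm]
  rw [h1, h2]
  exact d.sep a b A hA

section sec

variable {d : Sx} (e : SxE d)

/-- the mismatch of the references selected at two times, at a translate -/
noncomputable def Gx (t : ℕ) (ω : e.Ω) : ℝ := d.gg (e.s ω) (e.s (e.T^[t] ω)) (e.g ω)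

theorem meas_sel2 {C : Fin d.n → Fin d.n → d.Ω' → ℝ} (hC : ∀ a b, Measurable (C a b)) (t : ℕ) :
    Measurable fun ω => C (e.s ω) (e.s (e.T^[t] ω)) (e.g ω) :=
  s2_meas_sel (J := fun ω => (e.s ω, e.s (e.T^[t] ω)))
    (e.sm.prodMk (e.sm.comp (s2_iter_meas e.T t))) (C := fun j => C j.1 j.2)
    (fun j => hC j.1 j.2) e.fac.1.measurable

theorem gg_nn (a b : Fin d.n) (x : d.Ω') : 0 ≤ d.gg a b x ∧ d.gg a b x ≤ 1 := by
  unfold Sx.gg dm
  split_ifs <;> norm_num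

theorem Gx_meas (t : ℕ) : Measurable (Gx e t) := meas_sel2 e (fun a b => meas_gg a b) t

/-- the translates -/
theorem Gx_tr (t l : ℕ) (ω : e.Ω) :
    d.gg (e.s ω) (e.s (e.T^[t] ω)) (d.T'^[1 * l] (e.g ω)) ≤
      Gx e t (e.T^[l] ω) + e.mv l ω + e.mv l (e.T^[t] ω) := by
  have h0 := mv_bd e l ω
  have h1 := mv_bd e l (e.T^[t] ω)
  have h2 := gg_nn (d := d) (e.s ω) (e.s (e.T^[t] ω)) (d.T'^[1 * l] (e.g ω))
  have h3 : 0 ≤ Gx e t (e.T^[l] ω) := (gg_nn _ _ _).1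
  by_cases ha : e.s (e.T^[l] ω) = e.s ω
  · by_cases hb : e.s (e.T^[l] (e.T^[t] ω)) = e.s (e.T^[t] ω)
    · have h4 : Gx e t (e.T^[l] ω) =
          d.gg (e.s ω) (e.s (e.T^[t] ω)) (d.T'^[1 * l] (e.g ω)) := by
        unfold Gx
        rw [← Function.iterate_add_apply, add_comm t l, Function.iterate_add_apply, ha, hb,
          g_iter, one_mul]
      rw [h4]
      linarith [h0.1, h1.1]
    · have h5 : e.mv l (e.T^[t] ω) = 1 := by
        unfold SxE.mv
        rw [if_neg hb]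
      linarith [h0.1, h2.2]
  · have h5 : e.mv l ω = 1 := by
      unfold SxE.mv
      rw [if_neg ha]
    linarith [h1.1, h2.2]

/-- the average over the translates -/
theorem Gx_av (L t : ℕ) (A : Set e.Ω) (hL : 0 < L) (hA : MeasurableSet[Inv e.T 1] A) :
    ∫ ω in A, Av d.T' 1 L (d.gg (e.s ω) (e.s (e.T^[t] ω))) (e.g ω) ∂e.P ≤
      ∫ ω in A, Gx e t ω ∂e.P + 2 / (L : ℝ) * ∑ l ∈ range L, ∫ ω in A, e.mv l ω ∂e.P := by
  have hL' : (0 : ℝ) < L := by exact_mod_cast hL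
  have hGi : ∀ l : ℕ, Integrable (fun ω => Gx e t (e.T^[l] ω)) (e.P.restrict A) := fun l =>
    s2_int ((Gx_meas e t).comp (s2_iter_meas e.T l)) (fun ω => gg_bd _ _ _)
  have hmi : ∀ l : ℕ, Integrable (fun ω => e.mv l ω) (e.P.restrict A) := fun l =>
    s2_int (meas_mv e l) (C := 1)
      (fun ω => by rw [abs_of_nonneg (mv_bd e l ω).1]; exact (mv_bd e l ω).2)
  have hmi' : ∀ l : ℕ, Integrable (fun ω => e.mv l (e.T^[t] ω)) (e.P.restrict A) := fun l =>
    s2_int ((meas_mv e l).comp (s2_iter_meas e.T t)) (C := 1)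
      (fun ω => by rw [abs_of_nonneg (mv_bd e l _).1]; exact (mv_bd e l _).2)
  have hti : ∀ l : ℕ, Integrable (fun ω => d.gg (e.s ω) (e.s (e.T^[t] ω)) (d.T'^[1 * l] (e.g ω)))
      (e.P.restrict A) := fun l =>
    s2_int (meas_sel2 e (C := fun a b x => d.gg a b (d.T'^[1 * l] x))
      (fun a b => (meas_gg a b).comp (s2_iter_meas d.T' _)) t) (fun ω => gg_bd _ _ _)
  have h1 : ∀ l : ℕ, ∫ ω in A, d.gg (e.s ω) (e.s (e.T^[t] ω)) (d.T'^[1 * l] (e.g ω)) ∂e.P ≤
      ∫ ω in A, Gx e t ω ∂e.P + 2 * ∫ ω in A, e.mv l ω ∂e.P := by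
    intro l
    have h2 : ∫ ω in A, d.gg (e.s ω) (e.s (e.T^[t] ω)) (d.T'^[1 * l] (e.g ω)) ∂e.P ≤
        ∫ ω in A, (Gx e t (e.T^[l] ω) + e.mv l ω + e.mv l (e.T^[t] ω)) ∂e.P :=
      integral_mono (hti l) (((hGi l).add (hmi l)).add (hmi' l)) (fun ω => Gx_tr e t l ω)
    have h3 : ∫ ω in A, (Gx e t (e.T^[l] ω) + e.mv l ω + e.mv l (e.T^[t] ω)) ∂e.P =
        ∫ ω in A, Gx e t (e.T^[l] ω) ∂e.P + ∫ ω in A, e.mv l ω ∂e.P +
          ∫ ω in A, e.mv l (e.T^[t] ω) ∂e.P := by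
      have h7 : Integrable (fun ω => Gx e t (e.T^[l] ω) + e.mv l ω) (e.P.restrict A) :=
        (hGi l).add (hmi l)
      rw [integral_add h7 (hmi' l), integral_add (hGi l) (hmi l)]
    rw [h3, x2_shift e.P e.T e.mp A hA l (Gx_meas e t),
      x2_shift e.P e.T e.mp A hA t (meas_mv e l)] at h2
    linarith
  have h4 : ∫ ω in A, Av d.T' 1 L (d.gg (e.s ω) (e.s (e.T^[t] ω))) (e.g ω) ∂e.P =
      (∑ l ∈ range L, ∫ ω in A, d.gg (e.s ω) (e.s (e.T^[t] ω)) (d.T'^[1 * l] (e.g ω)) ∂e.P) /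
        (L : ℝ) := by
    unfold Av
    rw [integral_div, integral_finsetSum _ fun l _ => hti l]
  have h5 : ∑ l ∈ range L, ∫ ω in A, d.gg (e.s ω) (e.s (e.T^[t] ω)) (d.T'^[1 * l] (e.g ω)) ∂e.P ≤
      ∑ l ∈ range L, (∫ ω in A, Gx e t ω ∂e.P + 2 * ∫ ω in A, e.mv l ω ∂e.P) :=
    Finset.sum_le_sum fun l _ => h1 l
  rw [Finset.sum_add_distrib, Finset.sum_const, card_range, nsmul_eq_mul,
    ← Finset.mul_sum] at h5
  rw [h4, div_le_iff₀ hL']
  have h6 : (∫ ω in A, Gx e t ω ∂e.P +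
      2 / (L : ℝ) * ∑ l ∈ range L, ∫ ω in A, e.mv l ω ∂e.P) * (L : ℝ) =
      (L : ℝ) * ∫ ω in A, Gx e t ω ∂e.P + 2 * ∑ l ∈ range L, ∫ ω in A, e.mv l ω ∂e.P := by
    field_simp
  rw [h6]
  exact h5

end sec

/-- X3: the first moment. -/
theorem pf_X3 : T_X3 := by
  intro d e L t A hL hA
  set D : Fin d.n → Fin d.n → e.Ω → ℝ := fun a b ω =>
    Av d.T' 1 L (d.gg a b) (e.g ω) - (d.P'[d.gg a b | Inv d.T' 1]) (e.g ω) with hD
  have hDm : ∀ a b, Measurable (D a b) := fun a b =>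
    ((s2_av_meas _ _ _ _ (meas_gg a b)).comp e.fac.1.measurable).sub
      ((stronglyMeasurable_condExp.measurable.mono
        (MeasurableSpace.invariants_le _) le_rfl).comp e.fac.1.measurable)
  have hDi : ∀ a b, Integrable (fun ω => |D a b ω|) (e.P.restrict A) := by
    intro a b
    have h0 : Integrable (D a b) e.P :=
      (s2_int ((s2_av_meas d.T' 1 L _ (meas_gg a b)).comp e.fac.1.measurable)
        (fun ω => s2_av_bd _ _ _ _ (gg_bd a b) _)).sub
        (e.fac.1.integrable_comp_of_integrable integrable_condExp)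
    exact h0.abs.restrict
  have hAvi : Integrable (fun ω => Av d.T' 1 L (d.gg (e.s ω) (e.s (e.T^[t] ω))) (e.g ω))
      (e.P.restrict A) :=
    s2_int (meas_sel2 e (C := fun a b => Av d.T' 1 L (d.gg a b))
      (fun a b => s2_av_meas _ _ _ _ (meas_gg a b)) t)
      (fun ω => s2_av_bd _ _ _ _ (gg_bd _ _) _)
  have hsi : Integrable (fun ω => ∑ a, ∑ b, |D a b ω|) (e.P.restrict A) :=
    integrable_finsetSum _ fun a _ => integrable_finsetSum _ fun b _ => hDi a b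
  have hPi : Integrable (fun ω => d.m₀ * e.Pt t ω) (e.P.restrict A) :=
    (s2_int (meas_Pt e t) (C := 1)
      (fun ω => by rw [abs_of_nonneg (Pt_bd e t ω).1]; exact (Pt_bd e t ω).2)).const_mul _
  have key : (fun ω => d.m₀ * e.Pt t ω) ≤ᵐ[e.P.restrict A]
      fun ω => Av d.T' 1 L (d.gg (e.s ω) (e.s (e.T^[t] ω))) (e.g ω) + ∑ a, ∑ b, |D a b ω| := by
    have h0 : ∀ᵐ x ∂d.P', ∀ a b, d.m₀ * ((d.e a b)ᶜ).indicator (fun _ => (1 : ℝ)) x ≤
        (d.P'[d.gg a b | Inv d.T' 1]) x :=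
      ae_all_iff.2 fun a => ae_all_iff.2 fun b => ce_lower d a b
    refine ae_restrict_of_ae ?_
    filter_upwards [e.fac.1.quasiMeasurePreserving.ae h0] with ω hω
    have h1 := hω (e.s ω) (e.s (e.T^[t] ω))
    have h2 : e.Pt t ω =
        ((d.e (e.s ω) (e.s (e.T^[t] ω)))ᶜ).indicator (fun _ => (1 : ℝ)) (e.g ω) := by
      unfold SxE.Pt
      by_cases h : e.g ω ∈ d.e (e.s ω) (e.s (e.T^[t] ω))
      · rw [if_pos h, Set.indicator_of_notMem]
        exact fun h' => h' h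
      · rw [if_neg h, Set.indicator_of_mem]
        exact h
    have h3 : |D (e.s ω) (e.s (e.T^[t] ω)) ω| ≤ ∑ a, ∑ b, |D a b ω| :=
      (Finset.single_le_sum (f := fun b => |D (e.s ω) b ω|) (fun b _ => abs_nonneg _)
        (Finset.mem_univ (e.s (e.T^[t] ω)))).trans
        (Finset.single_le_sum (f := fun a => ∑ b, |D a b ω|)
          (fun a _ => Finset.sum_nonneg fun b _ => abs_nonneg _) (Finset.mem_univ (e.s ω)))
    have h4 := neg_abs_le (D (e.s ω) (e.s (e.T^[t] ω)) ω)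
    have h5 : D (e.s ω) (e.s (e.T^[t] ω)) ω =
      Av d.T' 1 L (d.gg (e.s ω) (e.s (e.T^[t] ω))) (e.g ω) -
        (d.P'[d.gg (e.s ω) (e.s (e.T^[t] ω)) | Inv d.T' 1]) (e.g ω) := rfl
    rw [h2]
    linarith
  have h1 : d.m₀ * ∫ ω in A, e.Pt t ω ∂e.P ≤
      ∫ ω in A, Av d.T' 1 L (d.gg (e.s ω) (e.s (e.T^[t] ω))) (e.g ω) ∂e.P +
        ∑ a, ∑ b, ∫ ω in A, |D a b ω| ∂e.P := by
    rw [← integral_const_mul]
    refine (integral_mono_ae hPi (hAvi.add hsi) key).trans (le_of_eq ?_)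
    refine (integral_add hAvi hsi).trans ?_
    rw [integral_finsetSum _ fun a _ =>
      integrable_finsetSum _ fun b _ => hDi a b]
    congr 1
    exact Finset.sum_congr rfl fun a _ => integral_finsetSum _ fun b _ => hDi a b
  have h2 := Gx_av e L t A hL hA
  have h3 : ∫ ω in A, Gx e t ω ∂e.P = ∫ ω in A, dm e.ys (e.yt t) ω ∂e.P := rfl
  unfold SxE.E4
  rw [h3] at h2
  linarith

end Pool.Agent.H6.LF
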