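import Pool.Agent.H25.LF.Targets
import Pool.Agent.H65.PF.RT

/-!
# Board `lpf_modules`, row PPW: the higher powers of the primes `l ≤ x ^ θ`
-/

set_option autoImplicit false

open Finset Real ArithmeticFunction

namespace Pool.Agent.H6.LF

open Pool.Agent.H25.LF
open Pool.Agent.H30.PF (S8)

/-- the number of primes is small -/
theorem pr_small (ε : ℝ) (hε : 0 < ε) :
    ∃ x₀ : ℝ, ∀ x : ℝ, x₀ ≤ x → ((PR x).card : ℝ) ≤ ε * x := by
  have h1 := Chebyshev.eventually_primeCounting_le (ε := 1) one_pos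
  have h2 : ∀ᶠ x : ℝ in Filter.atTop, (Real.log 4 + 1) / ε ≤ Real.log x :=
    Real.tendsto_log_atTop.eventually_ge_atTop _
  have h3 : ∀ᶠ x : ℝ in Filter.atTop, 2 ≤ x := Filter.eventually_ge_atTop 2
  obtain ⟨x₀, hx₀⟩ := Filter.eventually_atTop.1 (h1.and (h2.and h3))
  refine ⟨x₀, fun x hx => ?_⟩
  obtain ⟨h4, h5, h6⟩ := hx₀ x hx
  have h7 : ((PR x).card : ℝ) ≤ (Nat.primeCounting ⌊x⌋₊ : ℝ) := by
    rw [← Nat.primesLE_card_eq_primeCounting]
    have h8 : PR x ⊆ Nat.primesLE ⌊x⌋₊ := by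
      intro p hp
      unfold PR at hp
      rw [mem_filter, mem_Icc] at hp
      rw [Nat.mem_primesLE]
      exact ⟨hp.1.2, hp.2⟩
    exact_mod_cast card_le_card h8
  have h9 : 0 < Real.log x := Real.log_pos (by linarith)
  refine h7.trans (h4.trans ?_)
  rw [div_le_iff₀ h9]
  rw [div_le_iff₀ hε] at h5
  have h10 : 0 ≤ x := by linarith
  calc (Real.log 4 + 1) * x ≤ (Real.log x * ε) * x := mul_le_mul_of_nonneg_right h5 h10
    _ = ε * x * Real.log x := by ring

theorem Dv_mod {d n : ℕ} (h : Dv d n) : n ^ 2 % d = 2 % d := by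
  unfold Dv at h
  have h1 : (2 : ℕ) ≡ n ^ 2 [MOD d] := by
    rw [Nat.modEq_iff_dvd]
    push_cast
    exact h
  exact h1.symm

/-- a crude bound for the number of solutions -/
theorem crude {l a : ℕ} (hl : l.Prime) (hl2 : l ≠ 2) (ha : 1 ≤ a) (X : ℕ) :
    ((Icc 1 X).filter (Dv (l ^ a))).card ≤ 2 * (X / l ^ a + 1) := by
  have hodd : Odd (l ^ a) := (hl.odd_of_ne_two hl2).pow
  have hd : 0 < l ^ a := pow_pos hl.pos a
  have hr := (Pool.Agent.H65.PF.rt (l ^ a) hodd).1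
  rw [Nat.primeFactors_prime_pow (by omega) hl, card_singleton, pow_one] at hr
  have h1 : ((Icc 1 X).filter (Dv (l ^ a))).card ≤
      (((range (l ^ a)).filter (fun b => b ^ 2 % (l ^ a) = 2 % (l ^ a))) ×ˢ
        range (X / l ^ a + 1)).card := by
    refine card_le_card_of_injOn (fun n => (n % l ^ a, n / l ^ a)) ?_ ?_
    · intro n hn
      have hn' := mem_filter.1 (mem_coe.1 hn)
      have hn1 := mem_Icc.1 hn'.1
      refine mem_coe.2 (mem_product.2 ⟨mem_filter.2 ⟨mem_range.2 (Nat.mod_lt _ hd), ?_⟩,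
        mem_range.2 (Nat.lt_succ_of_le (Nat.div_le_div_right hn1.2))⟩)
      show (n % l ^ a) ^ 2 % (l ^ a) = 2 % (l ^ a)
      rw [← Nat.pow_mod]
      exact Dv_mod hn'.2
    · intro n _ m _ h
      have h1 : n % l ^ a = m % l ^ a := congrArg Prod.fst h
      have h2 : n / l ^ a = m / l ^ a := congrArg Prod.snd h
      rw [← Nat.div_add_mod n (l ^ a), ← Nat.div_add_mod m (l ^ a), h1, h2]
  rw [card_product, card_range] at h1
  exact h1.trans (Nat.mul_le_mul_right _ hr)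

theorem two_pow {a n : ℕ} (ha : 2 ≤ a) : ¬ Dv (2 ^ a) n := by
  intro h
  have h1 : (4 : ℤ) ∣ (n : ℤ) ^ 2 - 2 := by
    refine dvd_trans ?_ h
    obtain ⟨k, rfl⟩ := Nat.exists_eq_add_of_le ha
    rw [pow_add]
    push_cast
    exact Dvd.intro _ rfl
  rcases Int.even_or_odd' (n : ℤ) with ⟨k, hk | hk⟩
  · rw [hk] at h1
    have h2 : (2 * k) ^ 2 - 2 = 4 * k ^ 2 - 2 := by ring
    rw [h2] at h1
    omega
  · rw [hk] at h1
    have h2 : (2 * k + 1) ^ 2 - 2 = 4 * (k ^ 2 + k) - 1 := by ring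
    rw [h2] at h1
    omega

/-- one term -/
theorem NN_le {x : ℝ} (hx : 1 ≤ x) {l a : ℕ} (hl : l.Prime) (ha : 2 ≤ a) :
    NN x (l ^ a) ≤ 2 * (x / (l : ℝ) ^ a) + (if ((l : ℝ) ^ a < x ^ 2) then 2 else 0) := by
  have hlpos : (0 : ℝ) < (l : ℝ) ^ a := by
    have : (0 : ℝ) < l := by exact_mod_cast hl.pos
    positivity
  have hx0 : 0 ≤ x / (l : ℝ) ^ a := by positivity
  by_cases h0 : NN x (l ^ a) = 0
  · rw [h0]
    split_ifs
    · linarith
    · linarith
  have h1 : ((PR x).filter (Dv (l ^ a))).Nonempty := by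
    rw [nonempty_iff_ne_empty]
    intro h
    apply h0
    unfold NN
    rw [h, card_empty, Nat.cast_zero]
  obtain ⟨p, hp⟩ := h1
  rw [mem_filter] at hp
  have hp1 := hp.1
  unfold PR at hp1
  rw [mem_filter, mem_Icc] at hp1
  have hl2 : l ≠ 2 := by
    rintro rfl
    exact two_pow ha hp.2
  have hpx : (p : ℝ) ≤ x := (Nat.le_floor_iff (by linarith)).1 hp1.1.2
  have h2 : (l : ℝ) ^ a < x ^ 2 := by
    have h3 : (0 : ℤ) < (p : ℤ) ^ 2 - 2 := by
      have h4 : (2 : ℤ) ≤ p := by exact_mod_cast hp1.2.two_le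
      nlinarith
    have h4 : ((l ^ a : ℕ) : ℤ) ≤ (p : ℤ) ^ 2 - 2 := Int.le_of_dvd h3 hp.2
    have h5 : ((l ^ a : ℕ) : ℝ) ≤ (p : ℝ) ^ 2 - 2 := by exact_mod_cast h4
    have h6 : (p : ℝ) ^ 2 ≤ x ^ 2 := by
      have : (0 : ℝ) ≤ p := Nat.cast_nonneg p
      exact pow_le_pow_left₀ this hpx 2
    push_cast at h5
    linarith
  rw [if_pos h2]
  have h3 : NN x (l ^ a) ≤ (((Icc 1 ⌊x⌋₊).filter (Dv (l ^ a))).card : ℝ) := by
    unfold NN
    have h4 : (PR x).filter (Dv (l ^ a)) ⊆ (Icc 1 ⌊x⌋₊).filter (Dv (l ^ a)) := by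
      unfold PR
      exact filter_subset_filter _ (filter_subset _ _)
    exact_mod_cast card_le_card h4
  have h5 := crude hl hl2 (by omega : 1 ≤ a) ⌊x⌋₊
  have h6 : (((Icc 1 ⌊x⌋₊).filter (Dv (l ^ a))).card : ℝ) ≤
      2 * ((⌊x⌋₊ / l ^ a : ℕ) + 1) := by exact_mod_cast h5
  have h7 : ((⌊x⌋₊ / l ^ a : ℕ) : ℝ) ≤ x / (l : ℝ) ^ a := by
    refine Nat.cast_div_le.trans ?_
    push_cast
    exact div_le_div_of_nonneg_right (Nat.floor_le (by linarith)) hlpos.le
  linarith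

/-- the majorant -/
noncomputable def H (p : ℕ × ℕ) : ℝ := (1 / 2 : ℝ) ^ p.1 * (Real.log p.2 / (p.2 : ℝ) ^ 2)

theorem H_nonneg (p : ℕ × ℕ) : 0 ≤ H p := by
  unfold H
  have : 0 ≤ Real.log p.2 := Real.log_natCast_nonneg _
  positivity

theorem H_sum : Summable H := by
  have h1 : Summable fun a : ℕ => (1 / 2 : ℝ) ^ a := summable_geometric_two
  have h2 : Summable fun l : ℕ => Real.log l / (l : ℝ) ^ 2 := by
    have h3 : Summable fun l : ℕ => 2 * (1 / (l : ℝ) ^ (3 / 2 : ℝ)) :=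
      (Real.summable_one_div_nat_rpow.2 (by norm_num)).mul_left 2
    refine Summable.of_nonneg_of_le (fun l => ?_) (fun l => ?_) h3
    · have : 0 ≤ Real.log l := Real.log_natCast_nonneg _
      positivity
    · rcases Nat.eq_zero_or_pos l with h | h
      · subst h
        simp
      · have hl : (0 : ℝ) < l := by exact_mod_cast h
        have h4 : Real.log l ≤ (l : ℝ) ^ (1 / 2 : ℝ) / (1 / 2) :=
          Real.log_natCast_le_rpow_div l (by norm_num)
        rw [div_le_iff₀ (by positivity)]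
        have h5 : 2 * (1 / (l : ℝ) ^ (3 / 2 : ℝ)) * (l : ℝ) ^ 2 = (l : ℝ) ^ (1 / 2 : ℝ) / (1 / 2) := by
          have h6 : (l : ℝ) ^ 2 = (l : ℝ) ^ (3 / 2 : ℝ) * (l : ℝ) ^ (1 / 2 : ℝ) := by
            rw [← Real.rpow_add hl, ← Real.rpow_natCast]
            norm_num
          rw [h6]
          have h7 : (l : ℝ) ^ (3 / 2 : ℝ) ≠ 0 := (Real.rpow_pos_of_pos hl _).ne'
          field_simp
        rw [h5]
        exact h4
  exact h1.mul_of_nonneg h2 (fun a => by positivity) (fun l => by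
    have : 0 ≤ Real.log l := Real.log_natCast_nonneg _
    positivity)

theorem H_le {l a : ℕ} (hl : 2 ≤ l) (ha : 2 ≤ a) :
    Real.log l * (1 / (l : ℝ) ^ a) ≤ 4 * H (a, l) := by
  obtain ⟨b, rfl⟩ := Nat.exists_eq_add_of_le ha
  have hl0 : (2 : ℝ) ≤ l := by exact_mod_cast hl
  have h1 : (2 : ℝ) ^ b ≤ (l : ℝ) ^ b := pow_le_pow_left₀ (by norm_num) hl0 b
  have h2 : 0 ≤ Real.log l := Real.log_natCast_nonneg _
  unfold H
  simp only
  have h3 : 4 * ((1 / 2 : ℝ) ^ (2 + b) * (Real.log l / (l : ℝ) ^ 2)) =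
      Real.log l * (1 / ((l : ℝ) ^ 2 * 2 ^ b)) := by
    rw [pow_add, one_div_pow, one_div_pow]
    have : (2 : ℝ) ^ b ≠ 0 := by positivity
    field_simp
    norm_num
  rw [h3, pow_add]
  refine mul_le_mul_of_nonneg_left ?_ h2
  refine one_div_le_one_div_of_le (by positivity) ?_
  exact mul_le_mul_of_nonneg_left h1 (by positivity)

/-- the number of exponents -/
theorem exps {x : ℝ} (hx : 1 ≤ x) {l : ℕ} (hl : 2 ≤ l) (A : Finset ℕ) (hA : ∀ a ∈ A, 1 ≤ a) :
    ∑ a ∈ A, (if ((l : ℝ) ^ a < x ^ 2) then 2 * Real.log l else 0) ≤ 4 * Real.log x := by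
  have hl0 : (1 : ℝ) < l := by exact_mod_cast hl
  have hlog : 0 < Real.log l := Real.log_pos hl0
  have hlx : 0 ≤ Real.log x := Real.log_nonneg hx
  rw [← sum_filter, sum_const, nsmul_eq_mul]
  have h1 : (A.filter (fun a => (l : ℝ) ^ a < x ^ 2)) ⊆ Icc 1 ⌊2 * Real.log x / Real.log l⌋₊ := by
    intro a ha
    rw [mem_filter] at ha
    rw [mem_Icc]
    refine ⟨hA a ha.1, ?_⟩
    refine Nat.le_floor ?_
    rw [le_div_iff₀ hlog]
    have h2 : Real.log ((l : ℝ) ^ a) ≤ Real.log (x ^ 2) :=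
      Real.log_le_log (by positivity) ha.2.le
    rw [Real.log_pow, Real.log_pow] at h2
    push_cast at h2
    linarith
  have h2 : ((A.filter (fun a => (l : ℝ) ^ a < x ^ 2)).card : ℝ) ≤
      2 * Real.log x / Real.log l := by
    have h3 := card_le_card h1
    rw [Nat.card_Icc, Nat.add_sub_cancel] at h3
    have h4 : ((A.filter (fun a => (l : ℝ) ^ a < x ^ 2)).card : ℝ) ≤
        (⌊2 * Real.log x / Real.log l⌋₊ : ℝ) := by exact_mod_cast h3
    exact h4.trans (Nat.floor_le (by positivity))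
  calc ((A.filter (fun a => (l : ℝ) ^ a < x ^ 2)).card : ℝ) * (2 * Real.log l) ≤
        2 * Real.log x / Real.log l * (2 * Real.log l) :=
        mul_le_mul_of_nonneg_right h2 (by positivity)
    _ = 4 * Real.log x := by
        field_simp
        ring

theorem pf_PPW (_hNNB : T_NNB) : T_PPW := by
  intro θ δ hθ hθ1 hδ
  obtain ⟨S, hS⟩ := summable_iff_vanishing_norm.1 H_sum (δ / 32) (by positivity)
  obtain ⟨C, hC⟩ : ∃ C : ℝ, C = ∑ p ∈ S, Real.log p.2 := ⟨_, rfl⟩
  have hC0 : 0 ≤ C := by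
    rw [hC]
    exact sum_nonneg fun p _ => Real.log_natCast_nonneg _
  obtain ⟨x₁, h1⟩ := pr_small (δ / (4 * (C + 1))) (by positivity)
  have h2 : ∀ᶠ x : ℝ in Filter.atTop, ‖Real.log x‖ ≤ δ / 16 * ‖x ^ (1 - θ)‖ :=
    (isLittleO_log_rpow_atTop (by linarith : 0 < 1 - θ)).bound (by positivity)
  obtain ⟨x₂, h3⟩ := Filter.eventually_atTop.1 h2
  refine ⟨max (max x₁ x₂) 2, fun x hx => ?_⟩
  have hx1 : x₁ ≤ x := ((le_max_left _ _).trans (le_max_left _ _)).trans hx
  have hx2 : x₂ ≤ x := ((le_max_right _ _).trans (le_max_left _ _)).trans hx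
  have hx3 : 2 ≤ x := (le_max_right _ _).trans hx
  have hx0 : 0 < x := by linarith
  have hxge : 1 ≤ x := by linarith
  have hlx : 0 ≤ Real.log x := Real.log_nonneg hxge
  have h4 := h3 x hx2
  rw [Real.norm_of_nonneg hlx, Real.norm_of_nonneg (Real.rpow_nonneg hx0.le _)] at h4
  have h5 := h1 x hx1
  unfold SL
  obtain ⟨P, hP⟩ : ∃ P : Finset ℕ, P = (PR (x ^ θ)).filter (fun l : ℕ => 1 < (l : ℝ)) := ⟨_, rfl⟩
  rw [← hP]
  have hPp : ∀ l ∈ P, l.Prime := by
    intro l hl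
    rw [hP, mem_filter] at hl
    have := hl.1
    unfold PR at this
    exact (mem_filter.1 this).2
  have hPc : (P.card : ℝ) ≤ x ^ θ := by
    have h6 : P ⊆ Icc 1 ⌊x ^ θ⌋₊ := by
      rw [hP]
      unfold PR
      exact (filter_subset _ _).trans (filter_subset _ _)
    have h7 := card_le_card h6
    rw [Nat.card_Icc, Nat.add_sub_cancel] at h7
    have h8 : (P.card : ℝ) ≤ (⌊x ^ θ⌋₊ : ℝ) := by exact_mod_cast h7
    exact h8.trans (Nat.floor_le (Real.rpow_nonneg hx0.le _))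
  obtain ⟨A, hA⟩ : ∃ A : Finset ℕ, A = Icc 2 ⌊x⌋₊ := ⟨_, rfl⟩
  rw [← hA]
  have hA2 : ∀ a ∈ A, 2 ≤ a := by
    intro a ha
    rw [hA, mem_Icc] at ha
    exact ha.1
  have key : ∀ a ∈ A, ∀ l ∈ P, Real.log l * NN x (l ^ a) ≤
      (if (a, l) ∈ S then Real.log l * (PR x).card else 0) +
      (if (a, l) ∉ S then 8 * x * H (a, l) else 0) +
      (if ((l : ℝ) ^ a < x ^ 2) then 2 * Real.log l else 0) := by
    intro a ha l hl
    have hl0 : 0 ≤ Real.log l := Real.log_natCast_nonneg _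
    have e3 : 0 ≤ (if ((l : ℝ) ^ a < x ^ 2) then 2 * Real.log l else 0) := by
      split_ifs
      · positivity
      · exact le_rfl
    by_cases h : (a, l) ∈ S
    · rw [if_pos h, if_neg (not_not.2 h), add_zero]
      have e1 : NN x (l ^ a) ≤ (PR x).card := by
        unfold NN
        exact_mod_cast card_filter_le _ _
      have e2 := mul_le_mul_of_nonneg_left e1 hl0
      linarith
    · rw [if_neg h, if_pos h, zero_add]
      have e1 := mul_le_mul_of_nonneg_left (NN_le hxge (hPp l hl) (hA2 a ha)) hl0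
      have e2 := H_le (hPp l hl).two_le (hA2 a ha)
      refine e1.trans ?_
      rw [mul_add]
      refine add_le_add ?_ ?_
      · calc Real.log l * (2 * (x / (l : ℝ) ^ a)) = 2 * x * (Real.log l * (1 / (l : ℝ) ^ a)) := by
              ring
          _ ≤ 2 * x * (4 * H (a, l)) := mul_le_mul_of_nonneg_left e2 (by positivity)
          _ = 8 * x * H (a, l) := by ring
      · split_ifs
        · linarith
        · linarith
  have s1 : ∑ a ∈ A, ∑ l ∈ P, (if (a, l) ∈ S then Real.log l * ((PR x).card : ℝ) else 0) ≤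
      C * (PR x).card := by
    rw [← sum_product' A P (fun a l => if (a, l) ∈ S then Real.log l * ((PR x).card : ℝ) else 0)]
    rw [hC, sum_mul]
    have e1 : ∑ p ∈ A ×ˢ P, (if (p.1, p.2) ∈ S then Real.log p.2 * ((PR x).card : ℝ) else 0) =
        ∑ p ∈ (A ×ˢ P).filter (· ∈ S), Real.log p.2 * ((PR x).card : ℝ) := by
      rw [sum_filter]
    rw [e1]
    refine sum_le_sum_of_subset_of_nonneg ?_ ?_
    · intro p hp
      exact (mem_filter.1 hp).2
    · intro p _ _
      have : 0 ≤ Real.log (p.2 : ℝ) := Real.log_natCast_nonneg _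
      positivity
  have s2 : ∑ a ∈ A, ∑ l ∈ P, (if (a, l) ∉ S then 8 * x * H (a, l) else 0) ≤
      8 * x * (δ / 32) := by
    rw [← sum_product' A P (fun a l => if (a, l) ∉ S then 8 * x * H (a, l) else 0)]
    have e1 : ∑ p ∈ A ×ˢ P, (if (p.1, p.2) ∉ S then 8 * x * H (p.1, p.2) else 0) =
        8 * x * ∑ p ∈ (A ×ˢ P).filter (· ∉ S), H p := by
      rw [← sum_filter, mul_sum]
    rw [e1]
    refine mul_le_mul_of_nonneg_left ?_ (by positivity)
    have e2 := hS ((A ×ˢ P).filter (· ∉ S)) (by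
      rw [disjoint_left]
      intro p hp
      exact (mem_filter.1 hp).2)
    exact (le_abs_self _).trans e2.le
  have s3 : ∑ a ∈ A, ∑ l ∈ P, (if ((l : ℝ) ^ a < x ^ 2) then 2 * Real.log l else 0) ≤
      x ^ θ * (4 * Real.log x) := by
    rw [sum_comm]
    calc ∑ l ∈ P, ∑ a ∈ A, (if ((l : ℝ) ^ a < x ^ 2) then 2 * Real.log l else 0) ≤
          ∑ l ∈ P, 4 * Real.log x := by
          refine sum_le_sum fun l hl => ?_
          exact exps hxge (hPp l hl).two_le A (fun a ha => by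
            have := hA2 a ha
            omega)
      _ = P.card * (4 * Real.log x) := by rw [sum_const, nsmul_eq_mul]
      _ ≤ x ^ θ * (4 * Real.log x) := mul_le_mul_of_nonneg_right hPc (by positivity)
  have s4 : C * (PR x).card ≤ δ / 4 * x := by
    calc C * (PR x).card ≤ C * (δ / (4 * (C + 1)) * x) := mul_le_mul_of_nonneg_left h5 hC0
      _ = C / (C + 1) * (δ / 4 * x) := by
          field_simp
      _ ≤ 1 * (δ / 4 * x) := by
          refine mul_le_mul_of_nonneg_right ?_ (by positivity)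
          rw [div_le_one (by positivity)]
          linarith
      _ = δ / 4 * x := one_mul _
  have s5 : x ^ θ * (4 * Real.log x) ≤ δ / 4 * x := by
    have e1 : x ^ θ * x ^ (1 - θ) = x := by
      rw [← Real.rpow_add hx0]
      have : θ + (1 - θ) = 1 := by ring
      rw [this, Real.rpow_one]
    calc x ^ θ * (4 * Real.log x) ≤ x ^ θ * (4 * (δ / 16 * x ^ (1 - θ))) := by
          refine mul_le_mul_of_nonneg_left ?_ (Real.rpow_nonneg hx0.le _)
          linarith
      _ = δ / 4 * (x ^ θ * x ^ (1 - θ)) := by ring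
      _ = δ / 4 * x := by rw [e1]
  calc ∑ a ∈ A, ∑ l ∈ P, Real.log l * NN x (l ^ a) ≤
        ∑ a ∈ A, ∑ l ∈ P, ((if (a, l) ∈ S then Real.log l * ((PR x).card : ℝ) else 0) +
          (if (a, l) ∉ S then 8 * x * H (a, l) else 0) +
          (if ((l : ℝ) ^ a < x ^ 2) then 2 * Real.log l else 0)) :=
        sum_le_sum fun a ha => sum_le_sum fun l hl => key a ha l hl
    _ = ∑ a ∈ A, ∑ l ∈ P, (if (a, l) ∈ S then Real.log l * ((PR x).card : ℝ) else 0) +
        ∑ a ∈ A, ∑ l ∈ P, (if (a, l) ∉ S then 8 * x * H (a, l) else 0) +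
        ∑ a ∈ A, ∑ l ∈ P, (if ((l : ℝ) ^ a < x ^ 2) then 2 * Real.log l else 0) := by
        simp only [sum_add_distrib]
    _ ≤ δ / 4 * x + 8 * x * (δ / 32) + δ / 4 * x :=
        add_le_add (add_le_add (s1.trans s4) s2) (s3.trans s5)
    _ ≤ δ * x := by
        have : 0 ≤ δ * x := by positivity
        nlinarith

end Pool.Agent.H6.LF
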